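import Pool.Agent.H8.SD.Pack
import Pool.Agent.H8.SD.Pack3

/-!
# MP_be0ce5_co: Sidorenko's inequality for all regular graphs of large degree

Sidorenko's conjecture for regular graphs says `R(3, G) ≤ k + m` for every regular graph `G` with
`k` vertices and `m` edges.  We prove it, in the stronger form `R(3, G) ≤ m`, for **all** `d`-regular
graphs with `d ≥ 10 ^ 20` (and every number `k` of vertices).

For all graphs `G` with `k` vertices and all degrees at most `d`, `10 ^ 50 ≤ d ≤ k`, we prove
`R(3, G) ≤ 16 k d / log d + 1`.  (For the complete graph this is the theorem of Ajtai, Komlós and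
Szemerédi, up to the constant.)  So Sidorenko's inequality holds for all graphs `G`, regular or not,
with `m > 16 k d / log d` edges.

If every edge of `G` is in at most `τ` triangles, then `d ≥ 12000 (τ + 2)` is sufficient (so
`d ≥ 24000` for triangle-free graphs `G`), and `R(3, G) ≤ 5 k d / log (d / (τ + 2)) + 1`, which is
much smaller than `m = k d / 2` if `d / (τ + 2)` is large.

All this follows from theorems on packings: `G` need not be regular, it is sufficient that all
degrees of `G` are at most `d ≤ k`; for the second one `H` need not be triangle-free.  A triangle-free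
graph `H` with a vertex of degree at least `k` has an independent set of size `k`.

The proof counts partial packings (the method of Rosenfeld, and of Martinsson for the colouring of
triangle-free graphs).  Let `S` be a set of vertices of `G`, `v` another vertex and `f` a random
packing of `S`.  It is shown by induction that the expected number of vertices of `H` which are
available for `v` is at least `β`, a small constant times `k d`.

For graphs `G` with many triangles the neighbours of `v` restrict each other.  Fix a vertex `y` of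
`H`.  We hide the values `f u` of those neighbours `u` of `v` which go to neighbours of `y`, and the
values of a few random other ones (the lazy ones, an expected number of order `√d`); since `H` is
triangle-free, the hidden neighbours of the first kind do not forbid any neighbour of `y`.  So given
all revealed values the probability that no neighbour of `v` goes to a neighbour of `y` can be
bounded from below, and the average of the exponent over `y` is bounded.
-/

namespace Pool.Agent.Results.MP_be0ce5_co.LargeDegree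

open SimpleGraph

/-- `R(3,G)`: the least `n` such that the complement of every triangle-free graph on `n` vertices
contains a (not necessarily induced) copy of `G`. -/
noncomputable def ramsey3 {V : Type} (G : SimpleGraph V) : ℕ :=
  sInf {n : ℕ | ∀ H : SimpleGraph (Fin n), H.CliqueFree 3 → G ⊑ Hᶜ}

/-- every edge of `G` is in at most `τ` triangles -/
def FewTriangles {V : Type} (G : SimpleGraph V) (τ : ℕ) : Prop :=
  ∀ u v : V, G.Adj u v → (G.commonNeighbors u v).ncard ≤ τ

/-- all degrees of `G` are at most `d` -/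
def DegreesAtMost {V : Type} (G : SimpleGraph V) (d : ℕ) : Prop :=
  ∀ v : V, (G.neighborSet v).ncard ≤ d

open Classical in
theorem deg_filter {V : Type} [Fintype V] {G : SimpleGraph V} {d : ℕ} (h : DegreesAtMost G d)
    (v : V) : (Finset.univ.filter fun w => G.Adj v w).card ≤ d := by
  have := h v
  rw [Set.ncard_eq_toFinset_card'] at this
  refine (Finset.card_le_card ?_).trans this
  intro w hw
  rw [Set.mem_toFinset]
  exact (Finset.mem_filter.1 hw).2

open Classical in
theorem of_ok {V W : Type} [Fintype V] [Fintype W] {G : SimpleGraph V} {H : SimpleGraph W}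
    (h : ∃ f : V → W, Pool.Agent.H8.SD.Ok G H Finset.univ f) : G ⊑ Hᶜ := by
  obtain ⟨f, hf⟩ := h
  have hinj : Function.Injective f := by
    intro u w huw
    by_contra hne
    exact (hf u (Finset.mem_univ u) w (Finset.mem_univ w) hne).1 huw
  refine ⟨⟨⟨f, ?_⟩, hinj⟩⟩
  intro u w huw
  have := hf u (Finset.mem_univ u) w (Finset.mem_univ w) huw.ne
  exact ⟨this.1, this.2 huw⟩

open Classical in
theorem packing_sparse {V W : Type} [Fintype V] [Fintype W] (G : SimpleGraph V)
    (H : SimpleGraph W)
    (d τ : ℕ) (hdτ : 12000 * (τ + 2) ≤ d) (hdk : d ≤ Fintype.card V)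
    (hd : DegreesAtMost G d) (hτ : FewTriangles G τ) (hH : DegreesAtMost H (Fintype.card V))
    (hN : Fintype.card V * d ≤ 2 * Fintype.card W ∨
      5 * (Fintype.card V : ℝ) * d / Real.log (d / (τ + 2)) ≤ Fintype.card W) : G ⊑ Hᶜ := by
  have h2 : ∀ v t : V, G.Adj v t →
      (Finset.univ.filter fun w => G.Adj v w ∧ G.Adj t w).card ≤ τ := by
    intro v t hvt
    have := hτ v t hvt
    rw [Set.ncard_eq_toFinset_card'] at this
    refine (Finset.card_le_card ?_).trans this
    intro w hw
    rw [Set.mem_toFinset]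
    exact (Finset.mem_filter.1 hw).2
  refine of_ok ?_
  rcases hN with hN | hN
  · exact Pool.Agent.H8.SD.pack_half hdτ hdk (deg_filter hd) h2 (deg_filter hH) hN
  · exact Pool.Agent.H8.SD.pack_log hdτ hdk (deg_filter hd) h2 (deg_filter hH) hN

open Classical in
/-- a triangle-free graph of large maximal degree -/
theorem contained_of_degree {V W : Type} [Fintype V] [Fintype W] (G : SimpleGraph V)
    (H : SimpleGraph W) (hH : H.CliqueFree 3) (h : ¬ DegreesAtMost H (Fintype.card V)) :
    G ⊑ Hᶜ := by
  unfold DegreesAtMost at h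
  push Not at h
  obtain ⟨x, hx⟩ := h
  rw [Set.ncard_eq_toFinset_card'] at hx
  obtain ⟨e⟩ : Nonempty (V ↪ {y // y ∈ (H.neighborSet x).toFinset}) :=
    Function.Embedding.nonempty_of_card_le (by
      rw [Fintype.card_coe]; exact hx.le)
  refine ⟨⟨⟨fun v => (e v : W), ?_⟩, ?_⟩⟩
  · intro u w huw
    refine ⟨fun h => huw.ne (e.injective (Subtype.ext h)), fun hadj => ?_⟩
    have hu := (e u).2
    have hw := (e w).2
    rw [Set.mem_toFinset, mem_neighborSet] at hu hw
    exact hH {x, (e u : W), (e w : W)} (by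
      rw [is3Clique_triple_iff]
      exact ⟨hu, hw, hadj⟩)
  · intro u w huw
    exact e.injective (Subtype.ext huw)

open Classical in
theorem large_degree_log {V W : Type} [Fintype V] [Fintype W] (G : SimpleGraph V)
    (H : SimpleGraph W) (hH : H.CliqueFree 3) (d : ℕ) (hd50 : 10 ^ 50 ≤ d)
    (hdk : d ≤ Fintype.card V) (hd : DegreesAtMost G d)
    (hN : 16 * (Fintype.card V : ℝ) * d / Real.log d ≤ Fintype.card W) : G ⊑ Hᶜ := by
  by_cases h : DegreesAtMost H (Fintype.card V)
  · refine of_ok (Pool.Agent.H8.SD.pack_log_all hd50 hdk (deg_filter hd) (deg_filter h) ?_ hN)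
    intro a b c hab hbc hac
    exact hH {a, b, c} (by
      rw [is3Clique_triple_iff]
      exact ⟨hab, hac, hbc⟩)
  · exact contained_of_degree G H hH h

open Classical in
theorem large_degree {V W : Type} [Fintype V] [Fintype W] (G : SimpleGraph V)
    (H : SimpleGraph W) (hH : H.CliqueFree 3) (d : ℕ) (hd20 : 10 ^ 20 ≤ d)
    (hdk : d ≤ Fintype.card V) (hd : DegreesAtMost G d)
    (hN : Fintype.card V * d ≤ 2 * Fintype.card W) : G ⊑ Hᶜ := by
  by_cases h : DegreesAtMost H (Fintype.card V)
  · refine of_ok (Pool.Agent.H8.SD.pack_all hd20 hdk (deg_filter hd) (deg_filter h) ?_ hN)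
    intro a b c hab hbc hac
    exact hH {a, b, c} (by
      rw [is3Clique_triple_iff]
      exact ⟨hab, hac, hbc⟩)
  · exact contained_of_degree G H hH h

open Classical in
theorem two_mul_edges {V : Type} [Fintype V] (G : SimpleGraph V) (d : ℕ)
    (hreg : ∀ v : V, (G.neighborSet v).ncard = d) :
    2 * G.edgeSet.ncard = Fintype.card V * d := by
  have h1 := G.sum_degrees_eq_twice_card_edges
  have h2 : ∀ v : V, G.degree v = d := by
    intro v
    rw [← hreg v, Set.ncard_eq_toFinset_card', ← card_neighborFinset_eq_degree]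
    congr 1
  simp only [h2, Finset.sum_const, Finset.card_univ, smul_eq_mul] at h1
  rw [h1, ← coe_edgeFinset, Set.ncard_coe_finset]

/-- **Theorem.**  (1) If `G` is `d`-regular, `d ≥ 10 ^ 20`, then `R(3, G) ≤ m`, where `m` is the number
of edges of `G`; so `R(3, G) ≤ k + m`.
(2) If all degrees of `G` are at most `d`, `10 ^ 20 ≤ d ≤ k`, then the complement of every
triangle-free graph with at least `k d / 2` vertices contains `G`.
(3) If all degrees of `G` are at most `d`, `10 ^ 50 ≤ d ≤ k`, then `R(3, G) ≤ 16 k d / log d + 1`.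
(4) If `G` is `d`-regular and every edge is in at most `τ` triangles, `12000 (τ + 2) ≤ d`, then
`R(3, G) ≤ m` and `R(3, G) ≤ 5 k d / log (d / (τ + 2)) + 1`; in particular (5) for triangle-free `G`
and `d ≥ 24000`.
(6) If all degrees of `G` are at most `d`, every edge of `G` is in at
most `τ` triangles, `12000 (τ + 2) ≤ d ≤ k = |V|`, and all degrees of `H` are at most `k`, then `G`
is contained in the complement of `H` if `H` has at least `k d / 2` vertices, or at least
`5 k d / log (d / (τ + 2))` vertices. -/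
theorem result :
    (∀ (V : Type) [Fintype V] (G : SimpleGraph V) (d : ℕ), 10 ^ 20 ≤ d →
      (∀ v : V, (G.neighborSet v).ncard = d) →
      (∀ n : ℕ, G.edgeSet.ncard ≤ n →
        ∀ H : SimpleGraph (Fin n), H.CliqueFree 3 → G ⊑ Hᶜ) ∧
      ramsey3 G ≤ G.edgeSet.ncard ∧ ramsey3 G ≤ Fintype.card V + G.edgeSet.ncard) ∧
    (∀ (V W : Type) [Fintype V] [Fintype W] (G : SimpleGraph V) (H : SimpleGraph W) (d : ℕ),
      10 ^ 20 ≤ d → d ≤ Fintype.card V → DegreesAtMost G d → H.CliqueFree 3 →
      Fintype.card V * d ≤ 2 * Fintype.card W → G ⊑ Hᶜ) ∧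
    (∀ (V : Type) [Fintype V] (G : SimpleGraph V) (d : ℕ),
      10 ^ 50 ≤ d → d ≤ Fintype.card V → DegreesAtMost G d →
      (∀ n : ℕ, 16 * (Fintype.card V : ℝ) * d / Real.log d ≤ n →
        ∀ H : SimpleGraph (Fin n), H.CliqueFree 3 → G ⊑ Hᶜ) ∧
      (ramsey3 G : ℝ) ≤ 16 * Fintype.card V * d / Real.log d + 1) ∧
    (∀ (V : Type) [Fintype V] [Nonempty V] (G : SimpleGraph V) (d τ : ℕ),
      12000 * (τ + 2) ≤ d → (∀ v : V, (G.neighborSet v).ncard = d) → FewTriangles G τ →
      (∀ n : ℕ, G.edgeSet.ncard ≤ n →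
        ∀ H : SimpleGraph (Fin n), H.CliqueFree 3 → G ⊑ Hᶜ) ∧
      ramsey3 G ≤ G.edgeSet.ncard ∧
      (ramsey3 G : ℝ) ≤ 5 * Fintype.card V * d / Real.log (d / (τ + 2)) + 1) ∧
    (∀ (V : Type) [Fintype V] (G : SimpleGraph V) (d : ℕ), G.CliqueFree 3 → 24000 ≤ d →
      (∀ v : V, (G.neighborSet v).ncard = d) →
      (∀ n : ℕ, G.edgeSet.ncard ≤ n →
        ∀ H : SimpleGraph (Fin n), H.CliqueFree 3 → G ⊑ Hᶜ) ∧
      ramsey3 G ≤ G.edgeSet.ncard) ∧
    (∀ (V W : Type) [Fintype V] [Fintype W] (G : SimpleGraph V) (H : SimpleGraph W) (d τ : ℕ),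
      12000 * (τ + 2) ≤ d → d ≤ Fintype.card V → DegreesAtMost G d → FewTriangles G τ →
      DegreesAtMost H (Fintype.card V) →
      (Fintype.card V * d ≤ 2 * Fintype.card W ∨
        5 * (Fintype.card V : ℝ) * d / Real.log (d / (τ + 2)) ≤ Fintype.card W) → G ⊑ Hᶜ) := by
  classical
  have hcard : ∀ (V : Type) [Fintype V] [Nonempty V] (G : SimpleGraph V) (d : ℕ),
      (∀ v : V, (G.neighborSet v).ncard = d) → d ≤ Fintype.card V := by
    intro V _ _ G d h
    obtain ⟨v⟩ := ‹Nonempty V›
    rw [← h v, ← Nat.card_eq_fintype_card, ← Set.ncard_univ]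
    exact Set.ncard_le_ncard (Set.subset_univ _) (Set.toFinite _)
  have hempty : ∀ (V : Type) (_ : IsEmpty V) (G : SimpleGraph V) (n : ℕ)
      (H : SimpleGraph (Fin n)), G ⊑ Hᶜ := by
    intro V hE G n H
    exact ⟨⟨⟨fun v => hE.elim v, fun {u} => hE.elim u⟩, fun u => hE.elim u⟩⟩
  have main : ∀ (V : Type) [Fintype V] [Nonempty V] (G : SimpleGraph V) (d τ : ℕ),
      12000 * (τ + 2) ≤ d → (∀ v : V, (G.neighborSet v).ncard = d) → FewTriangles G τ →
      (∀ n : ℕ, G.edgeSet.ncard ≤ n →
        ∀ H : SimpleGraph (Fin n), H.CliqueFree 3 → G ⊑ Hᶜ) ∧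
      ramsey3 G ≤ G.edgeSet.ncard ∧
      (ramsey3 G : ℝ) ≤ 5 * Fintype.card V * d / Real.log (d / (τ + 2)) + 1 := by
    intro V _ _ G d τ hdτ hreg hτ
    have hk := hcard V G d hreg
    have he := two_mul_edges G d hreg
    have hd : DegreesAtMost G d := fun v => (hreg v).le
    have h0 : ∀ n : ℕ, (Fintype.card V * d ≤ 2 * Fintype.card (Fin n) ∨
        5 * (Fintype.card V : ℝ) * d / Real.log (d / (τ + 2)) ≤ Fintype.card (Fin n)) →
        ∀ H : SimpleGraph (Fin n), H.CliqueFree 3 → G ⊑ Hᶜ := by
      intro n hn H hH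
      by_cases h : DegreesAtMost H (Fintype.card V)
      · exact packing_sparse G H d τ hdτ hk hd hτ h hn
      · exact contained_of_degree G H hH h
    have h1 : ∀ n : ℕ, G.edgeSet.ncard ≤ n →
        ∀ H : SimpleGraph (Fin n), H.CliqueFree 3 → G ⊑ Hᶜ := by
      intro n hn
      refine h0 n (Or.inl ?_)
      rw [Fintype.card_fin]
      omega
    refine ⟨h1, Nat.sInf_le (h1 _ le_rfl), ?_⟩
    have hlog : 0 < Real.log (d / (τ + 2)) := by
      apply Real.log_pos
      have h2 : (12000 : ℝ) * (τ + 2) ≤ d := by exact_mod_cast hdτ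
      have h3 : (0 : ℝ) ≤ τ := by positivity
      rw [lt_div_iff₀ (by positivity)]
      linarith
    set B : ℝ := 5 * Fintype.card V * d / Real.log (d / (τ + 2)) with hB
    have hB0 : 0 ≤ B := by positivity
    have h2 : ramsey3 G ≤ ⌈B⌉₊ := by
      refine Nat.sInf_le ?_
      refine h0 _ (Or.inr ?_)
      rw [Fintype.card_fin]
      exact Nat.le_ceil B
    calc (ramsey3 G : ℝ) ≤ (⌈B⌉₊ : ℝ) := by exact_mod_cast h2
      _ ≤ B + 1 := (Nat.ceil_lt_add_one hB0).le
  refine ⟨?_, ?_, ?_, main, ?_, ?_⟩
  · intro V _ G d hd20 hreg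
    have h1 : ∀ n : ℕ, G.edgeSet.ncard ≤ n →
        ∀ H : SimpleGraph (Fin n), H.CliqueFree 3 → G ⊑ Hᶜ := by
      intro n hn H hH
      by_cases hV : Nonempty V
      · have he := two_mul_edges G d hreg
        refine large_degree G H hH d hd20 (hcard V G d hreg) (fun v => (hreg v).le) ?_
        rw [Fintype.card_fin]
        omega
      · exact hempty V (not_nonempty_iff.1 hV) G n H
    exact ⟨h1, Nat.sInf_le (h1 _ le_rfl), Nat.sInf_le (h1 _ (Nat.le_add_left _ _))⟩
  · intro V W _ _ G H d h1 h2 h3 h4 h5
    exact large_degree G H h4 d h1 h2 h3 h5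
  · intro V _ G d h1 h2 h3
    have h4 : ∀ n : ℕ, 16 * (Fintype.card V : ℝ) * d / Real.log d ≤ n →
        ∀ H : SimpleGraph (Fin n), H.CliqueFree 3 → G ⊑ Hᶜ := by
      intro n hn H hH
      refine large_degree_log G H hH d h1 h2 h3 ?_
      rw [Fintype.card_fin]
      exact hn
    refine ⟨h4, ?_⟩
    have hlog : 0 < Real.log d := by
      have := Pool.Agent.H8.SD.log_ge h1
      linarith
    set B : ℝ := 16 * Fintype.card V * d / Real.log d with hB
    have hB0 : 0 ≤ B := by positivity
    have h5 : ramsey3 G ≤ ⌈B⌉₊ := Nat.sInf_le (h4 _ (Nat.le_ceil B))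
    calc (ramsey3 G : ℝ) ≤ (⌈B⌉₊ : ℝ) := by exact_mod_cast h5
      _ ≤ B + 1 := (Nat.ceil_lt_add_one hB0).le
  · intro V _ G d hG hd hreg
    by_cases hV : Nonempty V
    · have h0 : FewTriangles G 0 := by
        intro u v huv
        have : G.commonNeighbors u v = ∅ := by
          rw [Set.eq_empty_iff_forall_notMem]
          intro w hw
          rw [mem_commonNeighbors] at hw
          exact hG {u, v, w} (by
            rw [is3Clique_triple_iff]
            exact ⟨huv, hw.1, hw.2⟩)
        rw [this, Set.ncard_empty]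
      have := main V G d 0 (by omega) hreg h0
      exact ⟨this.1, this.2.1⟩
    · have h1 : ∀ n : ℕ, G.edgeSet.ncard ≤ n →
          ∀ H : SimpleGraph (Fin n), H.CliqueFree 3 → G ⊑ Hᶜ := by
        intro n _ H _
        exact hempty V (not_nonempty_iff.1 hV) G n H
      exact ⟨h1, Nat.sInf_le (h1 _ le_rfl)⟩
  · intro V W _ _ G H d τ h1 h2 h3 h4 h5 h6
    exact packing_sparse G H d τ h1 h2 h3 h4 h5 h6

end Pool.Agent.Results.MP_be0ce5_co.LargeDegree
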